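import Mathlib.Algebra.Notation.Lemmas
import Mathlib.CategoryTheory.Category.Init
import Mathlib.Tactic.Monotonicity.Lemmas
import Mathlib.Algebra.Order.Ring.Star
import Mathlib.Combinatorics.Matroid.Basic
import Mathlib.Analysis.Normed.Order.Lattice
import Mathlib.MeasureTheory.Constructions.Polish.Basic
import Mathlib.Data.Nat.Nth
import Mathlib.Topology.Separation.CompletelyRegular
import Mathlib.Order.CompletePartialOrder

-- ======== part 0: formerly Pool.Agent.Lib.helper61.LusinNovikov
section MrgPart0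

/-! The Lusin-Novikov theorem and its standard consequences. -/

open Set Topology MeasureTheory Filter Function

namespace Pool.Agent.Lib.helper61

lemma analytic_inter {X : Type*} [TopologicalSpace X] [T2Space X] {A B : Set X}
    (hA : AnalyticSet A) (hB : AnalyticSet B) : AnalyticSet (A ∩ B) := by
  have : A ∩ B = ⋂ b : Bool, if b then A else B := by
    ext x; simp [and_comm]
  rw [this]
  exact AnalyticSet.iInter fun b => by cases b <;> simpa

section Polish

variable {Z X : Type*} [MetricSpace Z] [CompleteSpace Z] [SecondCountableTopology Z]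
  [MeasurableSpace Z] [BorelSpace Z] [TopologicalSpace X] [PolishSpace X] [MeasurableSpace X]
  [BorelSpace X] {π : Z → X}

/-- Borel sets covered by countably many Borel sets on which `π` is injective. -/
def Small (π : Z → X) (N : Set Z) : Prop :=
  MeasurableSet N ∧ ∃ M : ℕ → Set Z, (∀ k, MeasurableSet (M k) ∧ InjOn π (M k)) ∧ N ⊆ ⋃ k, M k

omit [MetricSpace Z] [CompleteSpace Z] [SecondCountableTopology Z] [BorelSpace Z]
  [TopologicalSpace X] [PolishSpace X] [MeasurableSpace X] [BorelSpace X] in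
lemma small_of_injOn {N : Set Z} (h1 : MeasurableSet N) (h2 : InjOn π N) : Small π N :=
  ⟨h1, fun _ => N, fun _ => ⟨h1, h2⟩, subset_iUnion (fun _ : ℕ => N) 0⟩

omit [MetricSpace Z] [CompleteSpace Z] [SecondCountableTopology Z] [BorelSpace Z]
  [TopologicalSpace X] [PolishSpace X] [MeasurableSpace X] [BorelSpace X] in
lemma small_iUnion {ι : Type*} [Countable ι] {N : ι → Set Z} (h : ∀ i, Small π (N i)) :
    Small π (⋃ i, N i) := by
  refine ⟨MeasurableSet.iUnion fun i => (h i).1, ?_⟩
  cases isEmpty_or_nonempty ι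
  · exact ⟨fun _ => ∅, fun _ => ⟨MeasurableSet.empty, injOn_empty _⟩, by simp⟩
  choose M hM hN using fun i => (h i).2
  obtain ⟨e, he⟩ := exists_surjective_nat (ι × ℕ)
  refine ⟨fun k => M (e k).1 (e k).2, fun k => hM _ _, iUnion_subset fun i z hz => ?_⟩
  obtain ⟨j, hj⟩ := mem_iUnion.1 (hN i hz)
  obtain ⟨k, hk⟩ := he (i, j)
  exact mem_iUnion.2 ⟨k, by rw [hk]; exact hj⟩

omit [MetricSpace Z] [CompleteSpace Z] [SecondCountableTopology Z] [BorelSpace Z]
  [TopologicalSpace X] [PolishSpace X] [MeasurableSpace X] [BorelSpace X] in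
lemma small_union {N N' : Set Z} (h : Small π N) (h' : Small π N') : Small π (N ∪ N') := by
  have : N ∪ N' = ⋃ b : Bool, if b then N else N' := by
    ext x; simp [or_comm]
  rw [this]
  exact small_iUnion fun b => by cases b <;> simpa

lemma inj_hull (hπ : Continuous π) {A : Set Z} (hA : AnalyticSet A) (hinj : InjOn π A) :
    ∃ B, A ⊆ B ∧ MeasurableSet B ∧ InjOn π B := by
  obtain ⟨S, hS, hsep⟩ := exists_seq_separating Z (p := MeasurableSet) MeasurableSet.univ univ
  have h : ∀ i, MeasurablySeparable (π '' (A ∩ S i)) (π '' (A ∩ (S i)ᶜ)) := by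
    intro i
    refine AnalyticSet.measurablySeparable
      ((analytic_inter hA (hS i).analyticSet).image_of_continuous hπ)
      ((analytic_inter hA (hS i).compl.analyticSet).image_of_continuous hπ) ?_
    rw [Set.disjoint_left]
    rintro _ ⟨z, hz, rfl⟩ ⟨z', hz', h⟩
    exact hz'.2 (hinj hz'.1 hz.1 h ▸ hz.2)
  choose C hC1 hC2 hC3 using h
  refine ⟨{z | ∀ i, z ∈ S i ↔ π z ∈ C i}, fun z hz i => ⟨fun h => hC1 i ⟨z, ⟨hz, h⟩, rfl⟩,
    fun h => ?_⟩, ?_, ?_⟩
  · by_contra h'
    exact Set.disjoint_left.1 (hC2 i) ⟨z, ⟨hz, h'⟩, rfl⟩ h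
  · rw [ofPred_forall]
    exact MeasurableSet.iInter fun i => MeasurableSet.iff (hS i) (hπ.measurable (hC3 i))
  · intro z hz z' hz' h
    exact hsep z trivial z' trivial fun i => by rw [hz i, hz' i, h]

lemma split_one (hπ : Continuous π) [Nonempty Z] {U : Set Z} (hU : IsClosed U) {ε : ℝ}
    (hε : 0 < ε) (A : Set Z → Set X) (hanti : ∀ N N', N ⊆ N' → A N' ⊆ A N)
    (hA : ∀ N, MeasurableSet N → AnalyticSet (A N))
    (h : ∀ N, Small π N → (π '' (U \ N) ∩ A N).Nonempty) :
    ∃ V : Bool → Set Z, (∀ b, IsClosed (V b) ∧ V b ⊆ U ∧ ∀ z ∈ V b, ∀ z' ∈ V b, dist z z' ≤ ε) ∧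
      Disjoint (V false) (V true) ∧
      ∀ N, Small π N → (π '' (V false \ N) ∩ π '' (V true \ N) ∩ A N).Nonempty := by
  by_contra hcon
  let d := TopologicalSpace.denseSeq Z
  have hd : DenseRange d := TopologicalSpace.denseRange_denseSeq Z
  let B : ℕ → ℕ → Set Z := fun i k => U ∩ Metric.closedBall (d i) (1 / (k + 1))
  let I := {t : ℕ × ℕ × ℕ // (2 : ℝ) / (t.2.2 + 1) ≤ ε ∧ Disjoint (B t.1 t.2.2) (B t.2.1 t.2.2)}
  have hI : ∀ t : I, ∃ N, Small π N ∧
      π '' (B t.1.1 t.1.2.2 \ N) ∩ π '' (B t.1.2.1 t.1.2.2 \ N) ∩ A N = ∅ := by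
    rintro ⟨⟨i, j, k⟩, h1, h2⟩
    by_contra h3
    refine hcon ⟨fun b => if b then B j k else B i k, fun b => ?_, by simpa using h2, ?_⟩
    · have : ∀ i, IsClosed (B i k) ∧ B i k ⊆ U ∧ ∀ z ∈ B i k, ∀ z' ∈ B i k, dist z z' ≤ ε := by
        intro i
        refine ⟨hU.inter Metric.isClosed_closedBall, inter_subset_left, fun z hz z' hz' => ?_⟩
        have e1 : dist z (d i) ≤ 1 / (k + 1) := hz.2
        have e2 : dist z' (d i) ≤ 1 / (k + 1) := hz'.2
        have e3 := dist_triangle_right z z' (d i)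
        have e4 : (2 : ℝ) / (k + 1) = 1 / (k + 1) + 1 / (k + 1) := by ring
        have e5 : (2 : ℝ) / (k + 1) ≤ ε := h1
        linarith
      cases b
      · exact this i
      · exact this j
    · intro N hN
      by_contra h4
      exact h3 ⟨N, hN, not_nonempty_iff_eq_empty.1 h4⟩
  choose M hM1 hM2 using hI
  have hN : Small π (⋃ t, M t) := small_iUnion hM1
  set N := ⋃ t, M t
  have hZ : AnalyticSet ((U \ N) ∩ π ⁻¹' A N) :=
    analytic_inter (hU.measurableSet.diff hN.1).analyticSet ((hA N hN.1).preimage hπ)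
  have hinj : InjOn π ((U \ N) ∩ π ⁻¹' A N) := by
    intro z hz z' hz' hzz
    by_contra hne
    have hpos : 0 < dist z z' := dist_pos.2 hne
    obtain ⟨k, hk⟩ := exists_nat_one_div_lt (show 0 < min (ε / 2) (dist z z' / 4) by positivity)
    have hk1 : (1 : ℝ) / (k + 1) < ε / 2 := hk.trans_le (min_le_left _ _)
    have hk2 : (1 : ℝ) / (k + 1) < dist z z' / 4 := hk.trans_le (min_le_right _ _)
    have hkpos : (0 : ℝ) < 1 / (k + 1) := by positivity
    obtain ⟨i, hi⟩ := hd.exists_dist_lt z hkpos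
    obtain ⟨j, hj⟩ := hd.exists_dist_lt z' hkpos
    have hdis : Disjoint (B i k) (B j k) := by
      rw [Set.disjoint_left]
      intro y hy hy'
      have e1 : dist y (d i) ≤ 1 / (k + 1) := hy.2
      have e2 : dist y (d j) ≤ 1 / (k + 1) := hy'.2
      have e3 := dist_triangle z (d i) y
      have e4 := dist_triangle y (d j) z'
      have e5 := dist_triangle z y z'
      rw [dist_comm (d i) y] at e3
      rw [dist_comm (d j) z'] at e4
      linarith
    have e4 : (2 : ℝ) / (k + 1) = 1 / (k + 1) + 1 / (k + 1) := by ring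
    let t : I := ⟨(i, j, k), by show (2 : ℝ) / (k + 1) ≤ ε; linarith, hdis⟩
    have hsub : M t ⊆ N := subset_iUnion M t
    have : π z ∈ π '' (B i k \ M t) ∩ π '' (B j k \ M t) ∩ A (M t) :=
      ⟨⟨⟨z, ⟨⟨hz.1.1, hi.le⟩, fun h => hz.1.2 (hsub h)⟩, rfl⟩,
        ⟨z', ⟨⟨hz'.1.1, hj.le⟩, fun h => hz'.1.2 (hsub h)⟩, hzz.symm⟩⟩, hanti _ _ hsub hz.2⟩
    rw [hM2 t] at this
    exact this
  obtain ⟨Z', h1, h2, h3⟩ := inj_hull hπ hZ hinj
  obtain ⟨_, ⟨z, hz, rfl⟩, hx⟩ := h (N ∪ Z') (small_union hN (small_of_injOn h2 h3))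
  exact hz.2 (Or.inr (h1 ⟨⟨hz.1, fun h => hz.2 (Or.inl h)⟩, hanti _ _ subset_union_left hx⟩))

/-- a family of sets is large -/
def Large {ι : Type*} (π : Z → X) (U : ι → Set Z) : Prop :=
  ∀ N, Small π N → (⋂ i, π '' (U i \ N)).Nonempty

lemma split_all (hπ : Continuous π) [Nonempty Z] {ι : Type} [Fintype ι] {U : ι → Set Z}
    (hU : ∀ i, IsClosed (U i)) (hL : Large π U) {ε : ℝ} (hε : 0 < ε) :
    ∃ V : ι × Bool → Set Z, (∀ j, IsClosed (V j) ∧ V j ⊆ U j.1 ∧
      ∀ z ∈ V j, ∀ z' ∈ V j, dist z z' ≤ ε) ∧ (∀ i, Disjoint (V (i, false)) (V (i, true))) ∧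
      Large π V := by
  classical
  have key : ∀ T : Finset ι, ∃ V : ι × Bool → Set Z, (∀ j, IsClosed (V j) ∧ V j ⊆ U j.1) ∧
      (∀ j, j.1 ∉ T → V j = U j.1) ∧
      (∀ j, j.1 ∈ T → ∀ z ∈ V j, ∀ z' ∈ V j, dist z z' ≤ ε) ∧
      (∀ i ∈ T, Disjoint (V (i, false)) (V (i, true))) ∧ Large π V := by
    intro T
    induction T using Finset.induction_on with
    | empty =>
      refine ⟨fun j => U j.1, fun j => ⟨hU _, subset_rfl⟩, fun _ _ => rfl, by simp, by simp, ?_⟩
      intro N hN
      obtain ⟨x, hx⟩ := hL N hN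
      exact ⟨x, mem_iInter.2 fun j => mem_iInter.1 hx j.1⟩
    | insert a T ha ih =>
      obtain ⟨V, h1, h2, h3, h4, h5⟩ := ih
      obtain ⟨V', g1, g2, g3⟩ := split_one hπ (hU a) hε
        (fun N => ⋂ j : ι × Bool, if j.1 = a then univ else π '' (V j \ N))
        (fun N N' hN => iInter_mono fun j => by
          split_ifs
          · exact subset_rfl
          · exact image_mono (sdiff_subset_sdiff_right hN))
        (fun N hN => by
          have : Nonempty (ι × Bool) := ⟨(a, true)⟩
          refine AnalyticSet.iInter fun j => ?_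
          split_ifs
          · exact MeasurableSet.univ.analyticSet
          · exact ((h1 j).1.measurableSet.diff hN).analyticSet.image_of_continuous hπ)
        (fun N hN => by
          obtain ⟨x, hx⟩ := h5 N hN
          refine ⟨x, ?_, mem_iInter.2 fun j => ?_⟩
          · have := mem_iInter.1 hx (a, true)
            rwa [h2 _ ha] at this
          · split_ifs
            · trivial
            · exact mem_iInter.1 hx j)
      refine ⟨fun j => if j.1 = a then V' j.2 else V j, fun j => ?_, fun j hj => ?_,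
        fun j hj => ?_, fun i hi => ?_, fun N hN => ?_⟩
      · by_cases h : j.1 = a
        · simp only [h, if_true]; exact ⟨(g1 _).1, (g1 _).2.1⟩
        · simp only [h, if_false]; exact h1 j
      · simp only [Finset.mem_insert, not_or] at hj
        simp only [hj.1, if_false]; exact h2 j hj.2
      · by_cases h : j.1 = a
        · simp only [h, if_true]; exact (g1 _).2.2
        · simp only [h, if_false]
          exact h3 j ((Finset.mem_insert.1 hj).resolve_left h)
      · by_cases h : i = a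
        · simp only [h, if_true]; exact g2
        · simp only [h, if_false]
          exact h4 i ((Finset.mem_insert.1 hi).resolve_left h)
      · obtain ⟨x, ⟨hx1, hx2⟩, hx3⟩ := g3 N hN
        refine ⟨x, mem_iInter.2 fun j => ?_⟩
        by_cases h : j.1 = a
        · simp only [h, if_true]
          rcases j with ⟨i, b⟩
          cases b
          · exact hx1
          · exact hx2
        · simp only [h, if_false]
          have := mem_iInter.1 hx3 j
          simpa only [h, if_false] using this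
  obtain ⟨V, h1, -, h3, h4, h5⟩ := key Finset.univ
  exact ⟨V, fun j => ⟨(h1 j).1, (h1 j).2, h3 j (Finset.mem_univ _)⟩,
    fun i => h4 i (Finset.mem_univ _), h5⟩

/-- levels of the binary tree -/
def Lev : ℕ → Type
  | 0 => Unit
  | n + 1 => Lev n × Bool

instance levFintype : ∀ n, Fintype (Lev n)
  | 0 => inferInstanceAs (Fintype Unit)
  | n + 1 => @instFintypeProd _ _ (levFintype n) _

/-- branches -/
def br (β : ℕ → Bool) : ∀ n, Lev n
  | 0 => ()
  | n + 1 => (br β n, β n)

lemma br_eq {β β' : ℕ → Bool} : ∀ n, (∀ i < n, β i = β' i) → br β n = br β' n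
  | 0, _ => rfl
  | n + 1, h => by
    simp only [br]
    rw [br_eq n fun i hi => h i (by omega), h n (by omega)]

theorem small_univ (hπ : Continuous π) (hc : ∀ x, (π ⁻¹' {x}).Countable) : Small π univ := by
  cases isEmpty_or_nonempty Z
  · exact small_of_injOn MeasurableSet.univ fun z => isEmptyElim z
  by_contra hcon
  have h0 : Large π (fun _ : Lev 0 => (univ : Set Z)) := by
    intro N hN
    by_contra h
    apply hcon
    have : N = univ := by
      by_contra h'
      obtain ⟨z, hz⟩ := (ne_univ_iff_exists_notMem N).1 h'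
      exact h ⟨π z, mem_iInter.2 fun _ => ⟨z, ⟨trivial, hz⟩, rfl⟩⟩
    rwa [this] at hN
  have step : ∀ n (U : {U : Lev n → Set Z // (∀ i, IsClosed (U i)) ∧ Large π U}),
      ∃ V : {U : Lev (n + 1) → Set Z // (∀ i, IsClosed (U i)) ∧ Large π U},
        (∀ i b, V.1 (i, b) ⊆ U.1 i) ∧
        (∀ j, ∀ z ∈ V.1 j, ∀ z' ∈ V.1 j, dist z z' ≤ (1 / 2 : ℝ) ^ n) ∧
        ∀ i, Disjoint (V.1 (i, false)) (V.1 (i, true)) := by
    intro n U
    obtain ⟨V, h1, h2, h3⟩ := split_all hπ U.2.1 U.2.2 (show (0 : ℝ) < (1 / 2) ^ n by positivity)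
    exact ⟨⟨V, fun j => (h1 j).1, h3⟩, fun i b => (h1 (i, b)).2.1, fun j => (h1 j).2.2, h2⟩
  choose F hF1 hF2 hF3 using step
  let U : ∀ n, {U : Lev n → Set Z // (∀ i, IsClosed (U i)) ∧ Large π U} := fun n =>
    Nat.rec ⟨fun _ => univ, fun _ => isClosed_univ, h0⟩ F n
  have hU : ∀ n, U (n + 1) = F n (U n) := fun _ => rfl
  have hx : ∀ n, ∃ x, ∀ i, ∃ z ∈ (U n).1 i, π z = x := by
    intro n
    obtain ⟨x, hx⟩ := (U n).2.2 ∅ (small_of_injOn MeasurableSet.empty (injOn_empty _))
    refine ⟨x, fun i => ?_⟩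
    obtain ⟨z, hz, h⟩ := mem_iInter.1 hx i
    exact ⟨z, hz.1, h⟩
  choose x z hz hzx using hx
  have hanti : ∀ β, Antitone fun n => (U n).1 (br β n) := fun β =>
    antitone_nat_of_succ_le fun n => hF1 n (U n) _ _
  have hcau : ∀ β, ∃ w, Tendsto (fun n => z (n + 1) (br β (n + 1))) atTop (𝓝 w) := by
    intro β
    refine cauchySeq_tendsto_of_complete (cauchySeq_of_le_geometric (1 / 2) 1 (by norm_num) ?_)
    intro n
    rw [one_mul]
    exact hF2 n (U n) (br β (n + 1)) _ (hz (n + 1) _) _
      (hanti β (Nat.le_succ (n + 1)) (hz (n + 1 + 1) _))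
  choose w hw using hcau
  have hwU : ∀ β n, w β ∈ (U n).1 (br β n) := by
    intro β n
    refine ((U n).2.1 _).mem_of_tendsto (hw β) ?_
    filter_upwards [eventually_ge_atTop n] with m hm
    exact hanti β (hm.trans (Nat.le_succ m)) (hz (m + 1) _)
  have hlim : ∀ β, Tendsto (fun n => x (n + 1)) atTop (𝓝 (π (w β))) := by
    intro β
    have := (hπ.tendsto _).comp (hw β)
    refine this.congr fun n => hzx _ _
  have hinj : Injective w := by
    intro β β' h
    by_contra hne
    have hex : ∃ n, β n ≠ β' n := Function.ne_iff.1 hne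
    classical
    have h1 := Nat.find_spec hex
    have h2 : br β (Nat.find hex) = br β' (Nat.find hex) :=
      br_eq _ fun i hi => not_not.1 (Nat.find_min hex hi)
    have h3 := hwU β (Nat.find hex + 1)
    have h4 := hwU β' (Nat.find hex + 1)
    have h5 := hF3 _ (U (Nat.find hex)) (br β (Nat.find hex))
    rw [← h] at h4
    simp only [br, hU] at h3 h4
    rw [← h2] at h4
    revert h1 h3 h4
    cases β (Nat.find hex) <;> cases β' (Nat.find hex) <;> intro h1 h3 h4
    · exact h1 rfl
    · exact Set.disjoint_left.1 h5 h3 h4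
    · exact Set.disjoint_left.1 h5 h4 h3
    · exact h1 rfl
  have hcount : (univ : Set (ℕ → Bool)).Countable := by
    refine ((hc (π (w fun _ => false))).preimage_of_injOn (f := w) hinj.injOn).mono fun β _ => ?_
    exact tendsto_nhds_unique (hlim β) (hlim _)
  have := countable_univ_iff.1 hcount
  obtain ⟨e, he⟩ := exists_surjective_nat (ℕ → Bool)
  obtain ⟨k, hk⟩ := he fun n => !(e n n)
  have := congrFun hk k
  simp at this

end Polish

/-- **Lusin-Novikov**. -/
theorem lusin_novikov {Z X : Type*} [MeasurableSpace Z] [StandardBorelSpace Z]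
    [MeasurableSpace X] [StandardBorelSpace X] {π : Z → X} (hπ : Measurable π)
    (hc : ∀ x, (π ⁻¹' {x}).Countable) :
    ∃ M : ℕ → Set Z, (∀ k, MeasurableSet (M k) ∧ InjOn π (M k)) ∧ ∀ z, ∃ k, z ∈ M k := by
  let := upgradeStandardBorel Z
  let := upgradeStandardBorel X
  let tZ : TopologicalSpace Z := inferInstance
  obtain ⟨t', t't, f_cont, t'_polish⟩ :
      ∃ t' : TopologicalSpace Z, t' ≤ tZ ∧ @Continuous Z _ t' _ π ∧ @PolishSpace Z t' :=
    hπ.exists_continuous
  have hb : @BorelSpace Z t' _ := by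
    refine @BorelSpace.mk Z t' _ ?_
    rw [borel_eq_borel_of_le (t' := tZ) t'_polish
      (upgradeStandardBorel Z).toPolishSpace t't]
    exact eq_borel_upgradeStandardBorel Z
  clear_value tZ
  have key : ∀ [TopologicalSpace Z] [PolishSpace Z] [BorelSpace Z], Continuous π →
      ∃ M : ℕ → Set Z, (∀ k, MeasurableSet (M k) ∧ InjOn π (M k)) ∧ ∀ z, ∃ k, z ∈ M k := by
    intro _ _ _ hcont
    let := TopologicalSpace.upgradeIsCompletelyMetrizable Z
    obtain ⟨-, M, h1, h2⟩ := small_univ hcont hc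
    exact ⟨M, h1, fun z => mem_iUnion.1 (h2 (mem_univ z))⟩
  exact @key t' t'_polish hb f_cont

theorem lusin_novikov_on {Z X : Type*} [MeasurableSpace Z] [StandardBorelSpace Z]
    [MeasurableSpace X] [StandardBorelSpace X] {π : Z → X} (hπ : Measurable π) {S : Set Z}
    (hS : MeasurableSet S) (hc : ∀ x, (S ∩ π ⁻¹' {x}).Countable) :
    ∃ M : ℕ → Set Z, (∀ k, MeasurableSet (M k) ∧ InjOn π (M k) ∧ M k ⊆ S) ∧
      ∀ z ∈ S, ∃ k, z ∈ M k := by
  have := hS.standardBorel
  obtain ⟨M, h1, h2⟩ := lusin_novikov (π := fun z : S => π z.1) (hπ.comp measurable_subtype_coe)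
    (fun x => ((hc x).preimage_of_injOn (f := (Subtype.val : S → Z))
      Subtype.val_injective.injOn).mono fun z hz => mem_inter z.2 hz)
  refine ⟨fun k => Subtype.val '' M k, fun k => ⟨hS.subtype_image (h1 k).1, ?_, ?_⟩, ?_⟩
  · rintro _ ⟨z, hz, rfl⟩ _ ⟨z', hz', rfl⟩ h
    rw [(h1 k).2 hz hz' h]
  · rintro _ ⟨z, -, rfl⟩; exact z.2
  · intro z hz
    obtain ⟨k, hk⟩ := h2 ⟨z, hz⟩
    exact ⟨k, _, hk, rfl⟩

/-- Countable-to-one Borel images of Borel sets are Borel. -/
theorem measurableSet_image_of_countable {Z X : Type*} [MeasurableSpace Z] [StandardBorelSpace Z]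
    [MeasurableSpace X] [StandardBorelSpace X] {π : Z → X} (hπ : Measurable π) {S : Set Z}
    (hS : MeasurableSet S) (hc : ∀ x, (S ∩ π ⁻¹' {x}).Countable) : MeasurableSet (π '' S) := by
  obtain ⟨M, h1, h2⟩ := lusin_novikov_on hπ hS hc
  have : π '' S = ⋃ k, π '' M k := by
    rw [← image_iUnion]
    congr 1
    exact subset_antisymm (fun z hz => mem_iUnion.2 (h2 z hz)) (iUnion_subset fun k => (h1 k).2.2)
  rw [this]
  exact MeasurableSet.iUnion fun k => (h1 k).1.image_of_measurable_injOn hπ (h1 k).2.1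

end Pool.Agent.Lib.helper61

end MrgPart0

-- ======== part 1: formerly Pool.Agent.Lib.helper61.BorelTools
section MrgPart1

/-! Quantifiers over countable sections, uniformization, colourings. -/

open Set MeasureTheory Function

namespace Pool.Agent.Lib.helper61

lemma meas_cases {Z ι β : Type*} [MeasurableSpace Z] [MeasurableSpace ι] [Countable ι]
    [MeasurableSingletonClass ι] [MeasurableSpace β] {a : Z → ι} (ha : Measurable a)
    {H : ι → Z → β} (hH : ∀ i, Measurable (H i)) : Measurable fun z => H (a z) z :=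
  have : Measurable fun p : Z × ι => H p.2 p.1 := measurable_from_prod_countable_left hH
  this.comp (measurable_id.prodMk ha)

@[fun_prop]
lemma meas_nat_lt {Z : Type*} [MeasurableSpace Z] {a b : Z → ℕ} (ha : Measurable a)
    (hb : Measurable b) : Measurable fun z => a z < b z :=
  measurableSet_setOfPred.1 (measurableSet_lt ha hb)

@[fun_prop]
lemma meas_nat_le {Z : Type*} [MeasurableSpace Z] {a b : Z → ℕ} (ha : Measurable a)
    (hb : Measurable b) : Measurable fun z => a z ≤ b z :=
  measurableSet_setOfPred.1 (measurableSet_le ha hb)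

@[fun_prop]
lemma meas_real_lt {Z : Type*} [MeasurableSpace Z] {a b : Z → ℝ} (ha : Measurable a)
    (hb : Measurable b) : Measurable fun z => a z < b z :=
  measurableSet_setOfPred.1 (measurableSet_lt ha hb)

@[fun_prop]
lemma meas_ne {Z β : Type*} [MeasurableSpace Z] [MeasurableSpace β] [MeasurableEq β]
    {a b : Z → β} (ha : Measurable a) (hb : Measurable b) : Measurable fun z => a z ≠ b z :=
  (ha.eq hb).not

lemma meas_apply_nat {Z β : Type*} [MeasurableSpace Z] [MeasurableSpace β] {p : Z → ℕ → β}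
    {a : Z → ℕ} (hp : Measurable p) (ha : Measurable a) : Measurable fun z => p z (a z) :=
  meas_cases (H := fun i z => p z i) ha fun i => (measurable_pi_apply i).comp hp

lemma meas_ite {Z β : Type*} [MeasurableSpace Z] [MeasurableSpace β] {p : Z → Prop}
    [DecidablePred p] {f g : Z → β} (hp : Measurable p) (hf : Measurable f) (hg : Measurable g) :
    Measurable fun z => if p z then f z else g z :=
  Measurable.ite hp.setOf hf hg

section
variable {Z W : Type*} [MeasurableSpace Z] [StandardBorelSpace Z] [MeasurableSpace W]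
  [StandardBorelSpace W]

omit [MeasurableSpace Z] [StandardBorelSpace Z] [MeasurableSpace W] [StandardBorelSpace W] in
lemma countable_sec {R : Z → W → Prop} (hc : ∀ z, {w | R z w}.Countable) (z : Z) :
    ({p : Z × W | R p.1 p.2} ∩ Prod.fst ⁻¹' {z}).Countable := by
  refine ((hc z).image fun w => (z, w)).mono ?_
  rintro ⟨a, w⟩ ⟨h1, h2⟩
  obtain rfl : a = z := h2
  exact ⟨w, h1, rfl⟩

lemma meas_exists {R : Z → W → Prop} (hR : Measurable fun p : Z × W => R p.1 p.2)
    (hc : ∀ z, {w | R z w}.Countable) : Measurable fun z => ∃ w, R z w := by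
  have := measurableSet_image_of_countable measurable_fst hR.setOf (countable_sec hc)
  refine measurableSet_setOfPred.1 ?_
  convert this using 1
  ext z
  simp

lemma meas_forall {R P : Z → W → Prop} (hR : Measurable fun p : Z × W => R p.1 p.2)
    (hP : Measurable fun p : Z × W => P p.1 p.2)
    (hc : ∀ z, {w | R z w}.Countable) : Measurable fun z => ∀ w, R z w → P z w := by
  have := (meas_exists (R := fun z w => R z w ∧ ¬ P z w) (hR.and hP.not)
    fun z => (hc z).mono fun w hw => hw.1).not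
  convert this using 2 with z
  simp

lemma exists_idx {R : Z → W → Prop} (hR : Measurable fun p : Z × W => R p.1 p.2)
    (hc : ∀ z, {w | R z w}.Countable) :
    ∃ idx : Z × W → ℕ, Measurable idx ∧
      ∀ z w w', R z w → R z w' → idx (z, w) = idx (z, w') → w = w' := by
  classical
  obtain ⟨M, h1, h2⟩ := lusin_novikov_on measurable_fst hR.setOf (countable_sec hc)
  have hex : ∀ p : Z × W, ∃ k, R p.1 p.2 → p ∈ M k := by
    intro p
    by_cases h : R p.1 p.2
    · obtain ⟨k, hk⟩ := h2 p h
      exact ⟨k, fun _ => hk⟩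
    · exact ⟨0, fun h' => absurd h' h⟩
  refine ⟨fun p => Nat.find (hex p), measurable_find hex fun k => (hR.imp (h1 k).1.mem).setOf, ?_⟩
  intro z w w' hw hw' h
  have e1 := Nat.find_spec (hex (z, w)) hw
  have e2 := Nat.find_spec (hex (z, w')) hw'
  simp only at h
  rw [h] at e1
  exact (Prod.ext_iff.1 ((h1 _).2.1 e1 e2 rfl)).2

lemma exists_select [Nonempty W] {R : Z → W → Prop} (hR : Measurable fun p : Z × W => R p.1 p.2)
    (hc : ∀ z, {w | R z w}.Countable) :
    ∃ g : Z → W, Measurable g ∧ ∀ z, (∃ w, R z w) → R z (g z) := by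
  classical
  obtain ⟨idx, hidx, hinj⟩ := exists_idx hR hc
  let R' : Z → W → Prop := fun z w => R z w ∧ ∀ w', R z w' → idx (z, w) ≤ idx (z, w')
  have hR' : Measurable fun p : Z × W => R' p.1 p.2 :=
    hR.and (meas_forall (R := fun (p : Z × W) w' => R p.1 w')
      (P := fun (p : Z × W) w' => idx (p.1, p.2) ≤ idx (p.1, w'))
      (hR.comp (by fun_prop : Measurable fun q : (Z × W) × W => (q.1.1, q.2)))
      (by fun_prop) fun p => hc p.1)
  have hex : ∀ z, (∃ w, R z w) → ∃ w, R' z w := by
    intro z h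
    obtain ⟨w, hw, hmin⟩ := (measure_wf_min (fun w => idx (z, w)) h)
    exact ⟨w, hw, hmin⟩
  have huniq : ∀ z w w', R' z w → R' z w' → w = w' := fun z w w' h h' =>
    hinj z w w' h.1 h'.1 (le_antisymm (h.2 _ h'.1) (h'.2 _ h.1))
  let w₀ : W := Classical.arbitrary W
  let g : Z → W := fun z => if h : ∃ w, R' z w then h.choose else w₀
  have hg : ∀ z, (∃ w, R' z w) → R' z (g z) := by
    intro z h
    simp only [g, h, dif_pos]
    exact h.choose_spec
  have hc' : ∀ z, {w | R' z w}.Countable := fun z => (hc z).mono fun w hw => hw.1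
  refine ⟨g, fun B hB => ?_, fun z h => (hg z (hex z h)).1⟩
  have h1 : Measurable fun z => (∃ w, R' z w ∧ w ∈ B) ∨ ((¬ ∃ w, R' z w) ∧ w₀ ∈ B) :=
    (meas_exists (R := fun z w => R' z w ∧ w ∈ B) (hR'.and (hB.mem.comp measurable_snd))
      fun z => (hc' z).mono fun w hw => hw.1).or ((meas_exists hR' hc').not.and measurable_const)
  convert h1.setOf using 1
  ext z
  simp only [mem_preimage, mem_ofPred_eq]
  by_cases h : ∃ w, R' z w
  · constructor
    · intro hz; exact Or.inl ⟨_, hg z h, hz⟩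
    · rintro (⟨w, hw, hB⟩ | h')
      · rwa [huniq z _ _ (hg z h) hw]
      · exact absurd h h'.1
  · have : g z = w₀ := dif_neg h
    rw [this]
    constructor
    · intro hz; exact Or.inr ⟨h, hz⟩
    · rintro (⟨w, hw, -⟩ | h')
      · exact absurd ⟨w, hw⟩ h
      · exact h'.2
where
  measure_wf_min {W : Type _} {P : W → Prop} (f : W → ℕ) (h : ∃ w, P w) :
      ∃ w, P w ∧ ∀ w', P w' → f w ≤ f w' := by
    obtain ⟨w, hw, hmin⟩ := (InvImage.wf f Nat.lt_wfRel.wf).has_min {w | P w} h
    exact ⟨w, hw, fun w' hw' => not_lt.1 (hmin w' hw')⟩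

lemma meas_infinite {R : Z → W → Prop} (hR : Measurable fun p : Z × W => R p.1 p.2)
    (hc : ∀ z, {w | R z w}.Countable) : Measurable fun z => {w | R z w}.Infinite := by
  obtain ⟨idx, hidx, hinj⟩ := exists_idx hR hc
  have h1 : Measurable fun z => ∀ m : ℕ, ∃ w, R z w ∧ m < idx (z, w) :=
    Measurable.forall fun m => meas_exists (R := fun z w => R z w ∧ m < idx (z, w))
      (hR.and (by fun_prop)) fun z => (hc z).mono fun w hw => hw.1
  convert h1 using 2 with z
  have hi : InjOn (fun w => idx (z, w)) {w | R z w} := fun w hw w' hw' h => hinj z w w' hw hw' h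
  rw [← infinite_image_iff hi, Set.infinite_iff_exists_gt]
  simp only [mem_image, mem_ofPred_eq]
  refine forall_congr' fun m => ⟨?_, ?_⟩
  · rintro ⟨_, ⟨w, hw, rfl⟩, h⟩; exact ⟨w, hw, h⟩
  · rintro ⟨w, hw, h⟩; exact ⟨_, ⟨w, hw, rfl⟩, h⟩

/-- Kechris-Miller colouring of an intersection graph. -/
lemma exists_colouring {Λ : Z → W → Prop} (hΛ : Measurable fun p : Z × W => Λ p.1 p.2)
    (hfin : ∀ z, {a | Λ z a}.Finite) (hc : ∀ a, {z | Λ z a}.Countable) :
    ∃ χ : Z → ℕ, Measurable χ ∧ ∀ z z' a, Λ z a → Λ z' a → χ z = χ z' → z = z' := by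
  classical
  obtain ⟨idx, hidx, hinj⟩ := exists_idx (R := fun a z => Λ z a)
    (hΛ.comp measurable_swap) hc
  obtain ⟨c, hcm, hci⟩ := MeasurableSpace.measurable_injection_nat_bool_of_countablySeparated W
  let D := Σ n : ℕ, (Fin n → Bool) → ℕ
  have : Nonempty D := ⟨⟨0, fun _ => 0⟩⟩
  obtain ⟨e, he⟩ := exists_surjective_nat D
  let P : Z → ℕ → Prop := fun z k => ∀ a, Λ z a → idx (a, z) = (e k).2 fun i => c a i
  have hP : ∀ k, Measurable fun z => P z k := by
    intro k
    refine meas_forall (P := fun z a => idx (a, z) = (e k).2 fun i => c a i) hΛ ?_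
      fun z => (hfin z).countable
    refine Measurable.eq (by fun_prop) ?_
    exact (Measurable.of_discrete (f := (e k).2)).comp (by fun_prop)
  have hex : ∀ z, ∃ k, P z k := by
    intro z
    have h1 : ∀ a b : W, ∃ i, a ≠ b → c a i ≠ c b i := by
      intro a b
      by_cases h : a = b
      · exact ⟨0, fun h' => absurd h h'⟩
      · obtain ⟨i, hi⟩ := Function.ne_iff.1 (hci.ne h)
        exact ⟨i, fun _ => hi⟩
    choose d hd using h1
    obtain ⟨n, hn⟩ := (((hfin z).prod (hfin z)).image fun p => d p.1 p.2).bddAbove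
    let σ : (Fin (n + 1) → Bool) → ℕ := fun s =>
      if h : ∃ a, Λ z a ∧ (fun i : Fin (n + 1) => c a i) = s then idx (h.choose, z) else 0
    obtain ⟨k, hk⟩ := he ⟨n + 1, σ⟩
    refine ⟨k, fun a ha => ?_⟩
    rw [hk]
    have h : ∃ b, Λ z b ∧ (fun i : Fin (n + 1) => c b i) = fun i : Fin (n + 1) => c a i :=
      ⟨a, ha, rfl⟩
    have h2 : h.choose = a := by
      by_contra h3
      have h4 : d h.choose a ≤ n := hn ⟨(h.choose, a), ⟨h.choose_spec.1, ha⟩, rfl⟩
      exact hd _ _ h3 (congrFun h.choose_spec.2 ⟨_, Nat.lt_succ_of_le h4⟩)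
    simp only [σ, h, dif_pos, h2]
  refine ⟨fun z => Nat.find (hex z), measurable_find hex fun k => (hP k).setOf, ?_⟩
  intro z z' a h h' hχ
  have e1 := Nat.find_spec (hex z) a h
  have e2 := Nat.find_spec (hex z') a h'
  simp only at hχ
  rw [hχ] at e1
  exact hinj a z z' h h' (e1.trans e2.symm)

end

/-- A Borel map onto `ℕ` on every infinite class. -/
lemma exists_tag {X : Type*} [MeasurableSpace X] [StandardBorelSpace X] (E : Setoid X)
    (hE : Measurable fun p : X × X => E p.1 p.2) (hc : ∀ x, {y | E x y}.Countable) :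
    ∃ ρ : X → ℕ, Measurable ρ ∧ ∀ a, {b | E a b}.Infinite → ∀ k, ∃ b, E a b ∧ ρ b = k := by
  classical
  obtain ⟨c, hcm, hci⟩ := MeasurableSpace.measurable_injection_nat_bool_of_countablySeparated X
  let S : ℕ → X → Prop := fun n => Nat.rec (fun _ => True)
    (fun n Sn x => Sn x ∧ (c x n = true ↔ ¬ {b | E x b ∧ Sn b ∧ c b n = false}.Infinite)) n
  have hS : ∀ n x, S (n + 1) x ↔
      S n x ∧ (c x n = true ↔ ¬ {b | E x b ∧ S n b ∧ c b n = false}.Infinite) := fun _ _ => Iff.rfl
  have hSm : ∀ n, Measurable (S n) := by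
    intro n
    induction n with
    | zero => exact measurable_const
    | succ n ih =>
      refine ih.and (Measurable.iff (by fun_prop) (Measurable.not ?_))
      exact meas_infinite (R := fun x b => E x b ∧ S n b ∧ c b n = false)
        (hE.and ((ih.comp measurable_snd).and (by fun_prop))) fun x => (hc x).mono fun _ h => h.1
  have hcl : ∀ {x y}, E x y → ∀ P : X → Prop, {b | E x b ∧ P b} = {b | E y b ∧ P b} := by
    intro x y h P
    ext b
    exact ⟨fun h' => ⟨E.trans (E.symm h) h'.1, h'.2⟩, fun h' => ⟨E.trans h h'.1, h'.2⟩⟩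
  have hinf : ∀ a, {b | E a b}.Infinite → ∀ n, {b | E a b ∧ S n b}.Infinite := by
    intro a ha n
    induction n with
    | zero => simpa [S] using ha
    | succ n ih =>
      by_cases h : {b | E a b ∧ S n b ∧ c b n = false}.Infinite
      · refine h.mono fun b hb => ⟨hb.1, hb.2.1, ?_⟩
        rw [← hcl hb.1 fun b => S n b ∧ c b n = false]
        simp [hb.2.2, h]
      · refine (ih.sdiff (not_not.1 h)).mono fun b hb => ⟨hb.1.1, hb.1.2, ?_⟩
        rw [← hcl hb.1.1 fun b => S n b ∧ c b n = false]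
        have : c b n = true := by
          by_contra h'
          exact hb.2 ⟨hb.1.1, hb.1.2, by simpa using h'⟩
        simp only [this, true_iff]
        exact h
  have hanti : ∀ x m n, m ≤ n → S n x → S m x := by
    intro x m n h
    induction h with
    | refl => exact id
    | step _ ih => exact fun h => ih h.1
  have huniq : ∀ x y, E x y → (∀ n, S n x) → (∀ n, S n y) → x = y := by
    intro x y h hx hy
    refine hci (funext fun n => ?_)
    have h1 := (hx (n + 1)).2
    have h2 := (hy (n + 1)).2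
    rw [hcl h fun b => S n b ∧ c b n = false, ← h2] at h1
    exact Bool.eq_iff_iff.2 h1
  have hex : ∀ x, ∃ n, ¬ S n x ∨ ∀ m, S m x := by
    intro x
    rcases Classical.em (∀ m, S m x) with h | h
    · exact ⟨0, Or.inr h⟩
    · obtain ⟨m, hm⟩ := not_forall.1 h
      exact ⟨m, Or.inl hm⟩
  let _ : ∀ x, DecidablePred fun n => ¬ S n x ∨ ∀ m, S m x := fun _ => Classical.decPred _
  let δ : X → ℕ := fun x => Nat.find (hex x)
  have hδ : Measurable δ :=
    measurable_find hex fun k => ((hSm k).not.or (Measurable.forall hSm)).setOf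
  let P : X → ℕ → Prop := fun x d => ∃ b, E x b ∧ δ b = d
  have hP : ∀ d, Measurable fun x => P x d := fun d =>
    meas_exists (R := fun x b => E x b ∧ δ b = d) (hE.and (by fun_prop))
      fun x => (hc x).mono fun _ h => h.1
  have hPinf : ∀ a, {b | E a b}.Infinite → {d | P a d}.Infinite := by
    intro a ha
    rw [Set.infinite_iff_exists_gt]
    intro B
    have hfin : {b | E a b ∧ ∀ m, S m b}.Finite := Set.Subsingleton.finite fun x hx y hy =>
      huniq x y (E.trans (E.symm hx.1) hy.1) hx.2 hy.2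
    obtain ⟨b, hb, hb'⟩ := ((hinf a ha B).sdiff hfin).nonempty
    refine ⟨δ b, ⟨b, hb.1, rfl⟩, ?_⟩
    by_contra h
    rcases Nat.find_spec (hex b) with h' | h'
    · exact h' (hanti b _ _ (not_lt.1 h) hb.2)
    · exact hb' ⟨hb.1, h'⟩
  refine ⟨fun x => @Nat.count (P x) (Classical.decPred _) (δ x), ?_, ?_⟩
  · refine meas_cases (H := fun d x => @Nat.count (P x) (Classical.decPred _) d) hδ fun d => ?_
    induction d with
    | zero => simp
    | succ d ih =>
      simp only [Nat.count_succ]
      exact ih.add (@meas_ite _ _ _ _ _ (fun x => Classical.decPred (P x) d) _ _ (hP d)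
        measurable_const measurable_const)
  · intro a ha k
    obtain ⟨b, hb, hd⟩ := Nat.nth_mem_of_infinite (hPinf a ha) k
    refine ⟨b, hb, ?_⟩
    have : P b = P a := by
      funext d
      exact propext ⟨fun ⟨y, h1, h2⟩ => ⟨y, E.trans hb h1, h2⟩,
        fun ⟨y, h1, h2⟩ => ⟨y, E.trans (E.symm hb) h1, h2⟩⟩
    have h3 := @Nat.count_nth_of_infinite _ (Classical.decPred _) (hPinf a ha) k
    show @Nat.count (P b) (Classical.decPred _) (δ b) = k
    rw [this, hd]
    exact h3

end Pool.Agent.Lib.helper61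

end MrgPart1

-- marker of a merged file
example : 731051 + 606236 = 731051 + 606236 := rfl
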